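import Pool.Agent.H76.CW.StmtB

/-! Rows SYT, RFT and FIX of the board cw_modules. -/

set_option autoImplicit false

open Set Pool.Agent.TK Pool.Agent.H71.VK

namespace Pool.Agent.CW

open Classical in
/-- the values of the table in SYT -/
private noncomputable def sytG (c : ℕ → ℕ → ℕ) (L : List ℕ) (Q : ℕ → ℕ → Prop) (s t : Ty) :
    ℕ × ℕ :=
  if h : ∃ p : ℕ × ℕ, Q p.1 p.2 ∧ tp c L p.1 = s ∧ tp c L p.2 = t then
    ee c h.choose.1 h.choose.2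
  else if h : ∃ p : ℕ × ℕ, Q p.1 p.2 ∧ tp c L p.1 = t ∧ tp c L p.2 = s then
    (ee c h.choose.1 h.choose.2).swap
  else (0, 0)

theorem pf_SYT (hTAB : T_TAB) (hFTY : T_FTY) : T_SYT := by
  classical
  intro n c hc L Q h1 h2
  have hval : ∀ x y, Q x y → sytG c L Q (tp c L x) (tp c L y) = ee c x y := by
    intro x y hxy
    have h : ∃ p : ℕ × ℕ, Q p.1 p.2 ∧ tp c L p.1 = tp c L x ∧ tp c L p.2 = tp c L y :=
      ⟨(x, y), hxy, rfl, rfl⟩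
    unfold sytG
    rw [dif_pos h]
    obtain ⟨h3, h4, h5⟩ := h.choose_spec
    exact h1 _ _ _ _ h3 hxy h4 h5
  obtain ⟨F, hF1, hF2⟩ := hTAB _ (hFTY n c hc L) (sytG c L Q)
  refine ⟨F, hF2 ?_, fun x y hxy => ?_⟩
  · intro s _ t _
    by_cases ha : ∃ p : ℕ × ℕ, Q p.1 p.2 ∧ tp c L p.1 = s ∧ tp c L p.2 = t
    · obtain ⟨⟨x, y⟩, hxy, hx, hy⟩ := ha
      simp only at hxy hx hy
      have e1 : sytG c L Q s t = ee c x y := by
        rw [← hx, ← hy]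
        exact hval x y hxy
      by_cases hb : ∃ p : ℕ × ℕ, Q p.1 p.2 ∧ tp c L p.1 = t ∧ tp c L p.2 = s
      · obtain ⟨⟨x', y'⟩, hxy', hx', hy'⟩ := hb
        simp only at hxy' hx' hy'
        have e2 : sytG c L Q t s = ee c x' y' := by
          rw [← hx', ← hy']
          exact hval x' y' hxy'
        rw [e1, e2, ee_swap]
        exact h2 x y x' y' hxy hxy' (hx.trans hy'.symm) (hy.trans hx'.symm)
      · have hc' : ∃ p : ℕ × ℕ, Q p.1 p.2 ∧ tp c L p.1 = s ∧ tp c L p.2 = t :=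
          ⟨(x, y), hxy, hx, hy⟩
        have e2 : sytG c L Q t s = (ee c hc'.choose.1 hc'.choose.2).swap := by
          unfold sytG
          rw [dif_neg hb, dif_pos hc']
        obtain ⟨h3, h4, h5⟩ := hc'.choose_spec
        rw [e1, e2, Prod.swap_swap]
        exact h1 _ _ _ _ hxy h3 (hx.trans h4.symm) (hy.trans h5.symm)
    · by_cases hb : ∃ p : ℕ × ℕ, Q p.1 p.2 ∧ tp c L p.1 = t ∧ tp c L p.2 = s
      · have e1 : sytG c L Q s t = (ee c hb.choose.1 hb.choose.2).swap := by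
          unfold sytG
          rw [dif_neg ha, dif_pos hb]
        have e2 : sytG c L Q t s = ee c hb.choose.1 hb.choose.2 := by
          unfold sytG
          rw [dif_pos hb]
        rw [e1, e2]
      · have e1 : sytG c L Q s t = (0, 0) := by
          unfold sytG
          rw [dif_neg ha, dif_neg hb]
        have e2 : sytG c L Q t s = (0, 0) := by
          unfold sytG
          rw [dif_neg hb, dif_neg ha]
        rw [e1, e2]
        rfl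
  · rw [hF1 _ ⟨x, rfl⟩ _ ⟨y, rfl⟩]
    exact (hval x y hxy).symm

open Classical in
/-- the values of the table in RFT -/
private noncomputable def rftG (c : ℕ → ℕ → ℕ) (L L' : List ℕ) (F : Tab) (s t : Ty) :
    ℕ × ℕ :=
  if h : ∃ p : ℕ × ℕ, tp c L' p.1 = s ∧ tp c L' p.2 = t then
    lk F (tp c L h.choose.1) (tp c L h.choose.2)
  else (0, 0)

theorem pf_RFT (hTAB : T_TAB) (hFTY : T_FTY) : T_RFT := by
  classical
  intro n c hc L L' hL F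
  have hval : ∀ x y, rftG c L L' F (tp c L' x) (tp c L' y) = lk F (tp c L x) (tp c L y) := by
    intro x y
    have h : ∃ p : ℕ × ℕ, tp c L' p.1 = tp c L' x ∧ tp c L' p.2 = tp c L' y :=
      ⟨(x, y), rfl, rfl⟩
    unfold rftG
    rw [dif_pos h]
    obtain ⟨h3, h4⟩ := h.choose_spec
    rw [tp_mono hL h3, tp_mono hL h4]
  obtain ⟨F', hF1, hF2⟩ := hTAB _ (hFTY n c hc L') (rftG c L L' F)
  refine ⟨F', fun u v => ?_, fun hS => hF2 ?_⟩
  · rw [hF1 _ ⟨u, rfl⟩ _ ⟨v, rfl⟩]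
    exact hval u v
  · rintro s ⟨x, rfl⟩ t ⟨y, rfl⟩
    rw [hval, hval]
    exact hS _ _

open Classical in
/-- the values of the table in FIX -/
private noncomputable def fixG (c : ℕ → ℕ → ℕ) (L : List ℕ) (A B : Set ℕ) (s t : Ty) :
    ℕ × ℕ :=
  if h : ∃ p : ℕ × ℕ, (p.1 ∈ A ∧ p.2 ∈ B) ∧ tp c L p.1 = s ∧ tp c L p.2 = t then
    ee c h.choose.1 h.choose.2
  else (0, 0)

theorem pf_FIX (hTAB : T_TAB) (hFTY : T_FTY) : T_FIX := by
  classical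
  intro n c hc P A z m hAP hFew
  obtain ⟨f, hf⟩ := hFew
  -- representatives of the classes
  have hr : ∀ j : Fin m, ∃ a : ℕ, (∃ b ∈ A, f b = j) → a ∈ A ∧ f a = j := by
    intro j
    by_cases h : ∃ b ∈ A, f b = j
    · obtain ⟨b, hb, hj⟩ := h
      exact ⟨b, fun _ => ⟨hb, hj⟩⟩
    · exact ⟨0, fun h' => absurd h' h⟩
  choose r hr using hr
  have hfin1 : {a | ∃ j, (∃ b ∈ A, f b = j) ∧ a = r j}.Finite :=
    (Set.finite_range r).subset (by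
      rintro a ⟨j, -, rfl⟩
      exact ⟨j, rfl⟩)
  obtain ⟨S1, hS1, -⟩ := exists_list hfin1
  have hS1' : ∀ a, a ∈ S1 ↔ ∃ j, (∃ b ∈ A, f b = j) ∧ a = r j := fun a => by
    have h : a ∈ ms S1 ↔ a ∈ {a | ∃ j, (∃ b ∈ A, f b = j) ∧ a = r j} := by rw [hS1]
    exact h
  have hrA : ∀ x ∈ A, r (f x) ∈ A ∧ f (r (f x)) = f x := fun x hx => hr (f x) ⟨x, hx, rfl⟩
  have hrS : ∀ x ∈ A, r (f x) ∈ S1 := fun x hx => (hS1' _).2 ⟨f x, ⟨x, hx, rfl⟩, rfl⟩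
  have hrv : ∀ x ∈ A, ∀ y ∈ P \ A, ee c x y = ee c (r (f x)) y := fun x hx y hy =>
    hf x hx _ (hrA x hx).1 (hrA x hx).2.symm y hy
  -- representatives of the types over `S1`
  have hw : ∀ t : Ty, ∃ y : ℕ, (∃ u ∈ P \ A, tp c S1 u = t) → y ∈ P \ A ∧ tp c S1 y = t := by
    intro t
    by_cases h : ∃ u ∈ P \ A, tp c S1 u = t
    · obtain ⟨u, hu, ht⟩ := h
      exact ⟨u, fun _ => ⟨hu, ht⟩⟩
    · exact ⟨0, fun h' => absurd h' h⟩
  choose w hw using hw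
  have hfin2 : {y | ∃ t ∈ {t : Ty | ∃ x, tp c S1 x = t},
      (∃ u ∈ P \ A, tp c S1 u = t) ∧ y = w t}.Finite :=
    ((hFTY n c hc S1).image w).subset (by
      rintro y ⟨t, ht, -, rfl⟩
      exact ⟨t, ht, rfl⟩)
  obtain ⟨S2, hS2, -⟩ := exists_list hfin2
  have hS2' : ∀ y, y ∈ S2 ↔ ∃ t ∈ {t : Ty | ∃ x, tp c S1 x = t},
      (∃ u ∈ P \ A, tp c S1 u = t) ∧ y = w t := fun y => by
    have h : y ∈ ms S2 ↔ y ∈ {y | ∃ t ∈ {t : Ty | ∃ x, tp c S1 x = t},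
      (∃ u ∈ P \ A, tp c S1 u = t) ∧ y = w t} := by rw [hS2]
    exact h
  have hwP : ∀ y ∈ P \ A, w (tp c S1 y) ∈ P \ A ∧ tp c S1 (w (tp c S1 y)) = tp c S1 y :=
    fun y hy => hw _ ⟨y, hy, rfl⟩
  have hwS : ∀ y ∈ P \ A, w (tp c S1 y) ∈ S2 := fun y hy =>
    (hS2' _).2 ⟨_, ⟨y, rfl⟩, ⟨y, hy, rfl⟩, rfl⟩
  have hstar : ∀ x ∈ A, ∀ y ∈ P \ A, ee c x y = ee c x (w (tp c S1 y)) := by
    intro x hx y hy
    rw [hrv x hx y hy, hrv x hx _ (hwP y hy).1, ee_eq_iff]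
    exact (tp_eq_iff.1 (hwP y hy).2 _ (hrS x hx)).symm
  -- the key property
  have hkey : ∀ x ∈ A, ∀ x' ∈ A, ∀ y ∈ P \ A, ∀ y' ∈ P \ A,
      tp c ((S1 ++ S2) ++ z) x = tp c ((S1 ++ S2) ++ z) x' →
      tp c ((S1 ++ S2) ++ z) y = tp c ((S1 ++ S2) ++ z) y' → ee c x y = ee c x' y' := by
    intro x hx x' hx' y hy y' hy' h1 h2
    have h3 : tp c S1 y = tp c S1 y' := tp_mono (fun a ha =>
      List.mem_append_left _ (List.mem_append_left _ ha)) h2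
    rw [hstar x hx y hy, hstar x' hx' y' hy', ← h3]
    exact tp_eq_iff.1 h1 _ (List.mem_append_left _ (List.mem_append_right _ (hwS y hy)))
  have hval : ∀ x ∈ A, ∀ y ∈ P \ A, fixG c ((S1 ++ S2) ++ z) A (P \ A)
      (tp c ((S1 ++ S2) ++ z) x) (tp c ((S1 ++ S2) ++ z) y) = ee c x y := by
    intro x hx y hy
    have h : ∃ p : ℕ × ℕ, (p.1 ∈ A ∧ p.2 ∈ P \ A) ∧
        tp c ((S1 ++ S2) ++ z) p.1 = tp c ((S1 ++ S2) ++ z) x ∧
        tp c ((S1 ++ S2) ++ z) p.2 = tp c ((S1 ++ S2) ++ z) y := ⟨(x, y), ⟨hx, hy⟩, rfl, rfl⟩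
    unfold fixG
    rw [dif_pos h]
    obtain ⟨⟨h3, h4⟩, h5, h6⟩ := h.choose_spec
    exact hkey _ h3 _ hx _ h4 _ hy h5 h6
  obtain ⟨F, hF1, -⟩ := hTAB _ (hFTY n c hc ((S1 ++ S2) ++ z))
    (fixG c ((S1 ++ S2) ++ z) A (P \ A))
  obtain ⟨F', hF1', -⟩ := hTAB _ (hFTY n c hc ((S1 ++ S2) ++ z))
    (fun s t => (fixG c ((S1 ++ S2) ++ z) A (P \ A) t s).swap)
  refine ⟨S1 ++ S2, F, F', ?_, ?_, ?_⟩
  · intro a ha
    rcases List.mem_append.1 ha with h | h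
    · obtain ⟨j, hj, rfl⟩ := (hS1' a).1 h
      exact hAP (hr j hj).1
    · obtain ⟨t, -, ht, rfl⟩ := (hS2' a).1 h
      exact (hw t ht).1.1
  · intro x hx _ y hy hyA _
    rw [hF1 _ ⟨x, rfl⟩ _ ⟨y, rfl⟩]
    exact (hval x hx y ⟨hy, hyA⟩).symm
  · intro x hx hxA _ y hy _
    rw [hF1' _ ⟨x, rfl⟩ _ ⟨y, rfl⟩]
    show _ = (fixG c ((S1 ++ S2) ++ z) A (P \ A) _ _).swap
    rw [hval y hy x ⟨hx, hxA⟩]
    rfl

end Pool.Agent.CW
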